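import Pool.Agent.TH573.UE.Pat

/-!
Weighted correlations with families of low complexity.
-/

set_option autoImplicit false

namespace Pool.Agent.TH573.UE

open Finset Filter Topology
open Pool.Agent.TH907.Sar (unit_norm sum_le_blocks range_eq_Icc few_words)

/-- blocks, with a fixed weight -/
theorem strong (u : ℕ → ℤˣ) (c : ℕ → ℝ) (hc : ∀ j, |c j| ≤ 1) (hf : Free u c)
    (J : ℕ) (hJ : 1 ≤ J) (L : ℕ) (W : Finset (Fin L → ℂ))
    (hW : ∀ w ∈ W, ∀ k, ‖w k‖ ≤ 1) (ε : ℝ) (hε : 0 ≤ ε) (δ : ℝ) (hδ : 0 ≤ δ) (ρ : ℝ) (hρ : 0 < ρ) :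
    ∀ᶠ N : ℕ in atTop, ∀ a : ℕ → Fin L → ℂ, (∀ m k, ‖a m k‖ ≤ 1) →
      (∀ m, ∃ w ∈ W, ∀ k, ‖a m k - w k‖ ≤ ε) →
      ∑ m ∈ range N, ‖∑ k : Fin L, a m k * (c (m + k + 1) : ℂ) *
        (((u (m + k + 1) : ℤˣ) : ℤ) : ℂ)‖
        ≤ (W.card * (4 * Real.exp (-(δ ^ 2 * L / 8))) + ρ + δ + ε + 1 / J) * (L * N) := by
  classical
  filter_upwards [bad_count u c hc hf J hJ L W hW δ hδ ρ hρ] with N hN a ha haw
  obtain ⟨Bad, hBad⟩ : ∃ Bad : Finset ℕ, Bad = (range N).filter (fun m => ∃ w ∈ W,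
      δ * L ≤ ‖∑ k : Fin L, (w k * gr J (rd J (c (m + k + 1)))) *
        (((u (m + k + 1) : ℤˣ) : ℤ) : ℂ)‖) := ⟨_, rfl⟩
  have hNB : (Bad.card : ℝ) ≤ (W.card * (4 * Real.exp (-(δ ^ 2 * L / 8))) + ρ) * N := by
    rw [hBad]
    exact hN
  have hc1 : ∀ j, ‖(c j : ℂ)‖ ≤ 1 := by
    intro j
    rw [Complex.norm_real, Real.norm_eq_abs]
    exact hc j
  have hJ0 : (0 : ℝ) < J := by exact_mod_cast hJ
  have hg1 : ∀ j, ‖gr J (rd J (c j))‖ ≤ 1 := fun j => gr_norm J hJ _ (rd_mem J _ (hc j))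
  have hg2 : ∀ j, ‖(c j : ℂ) - gr J (rd J (c j))‖ ≤ 1 / J := by
    intro j
    unfold gr
    rw [← Complex.ofReal_sub, Complex.norm_real, Real.norm_eq_abs]
    exact rd_close J hJ _
  have hterm : ∀ m ∈ range N, ‖∑ k : Fin L, a m k * (c (m + k + 1) : ℂ) *
      (((u (m + k + 1) : ℤˣ) : ℤ) : ℂ)‖
      ≤ (if m ∈ Bad then (L : ℝ) else 0) + (δ + ε + 1 / J) * L := by
    intro m hm
    have hL0 : (0 : ℝ) ≤ L := Nat.cast_nonneg L
    have hJn : (0 : ℝ) ≤ 1 / J := by positivity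
    by_cases hb : m ∈ Bad
    · rw [if_pos hb]
      have h1 : ‖∑ k : Fin L, a m k * (c (m + k + 1) : ℂ) * (((u (m + k + 1) : ℤˣ) : ℤ) : ℂ)‖
          ≤ L := by
        calc _ ≤ ∑ k : Fin L, ‖a m k * (c (m + k + 1) : ℂ) *
                (((u (m + k + 1) : ℤˣ) : ℤ) : ℂ)‖ := norm_sum_le _ _
          _ ≤ ∑ _k : Fin L, (1 : ℝ) := Finset.sum_le_sum fun k _ => by
              rw [norm_mul, unit_norm, mul_one, norm_mul]
              exact mul_le_one₀ (ha m k) (norm_nonneg _) (hc1 _)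
          _ = L := by simp
      have h2 : 0 ≤ (δ + ε + 1 / J) * L := by positivity
      linarith
    · rw [if_neg hb, zero_add]
      obtain ⟨w, hw, hwk⟩ := haw m
      have h1 : ‖∑ k : Fin L, (w k * gr J (rd J (c (m + k + 1)))) *
          (((u (m + k + 1) : ℤˣ) : ℤ) : ℂ)‖ < δ * L := by
        by_contra hcon
        push Not at hcon
        apply hb
        rw [hBad]
        exact Finset.mem_filter.2 ⟨hm, w, hw, hcon⟩
      have h2 : ∑ k : Fin L, a m k * (c (m + k + 1) : ℂ) * (((u (m + k + 1) : ℤˣ) : ℤ) : ℂ)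
          = ∑ k : Fin L, (a m k * ((c (m + k + 1) : ℂ) - gr J (rd J (c (m + k + 1)))) +
              (a m k - w k) * gr J (rd J (c (m + k + 1)))) * (((u (m + k + 1) : ℤˣ) : ℤ) : ℂ)
            + ∑ k : Fin L, (w k * gr J (rd J (c (m + k + 1)))) *
              (((u (m + k + 1) : ℤˣ) : ℤ) : ℂ) := by
        rw [← Finset.sum_add_distrib]
        exact Finset.sum_congr rfl fun k _ => by ring
      rw [h2]
      have h3 : ‖∑ k : Fin L, (a m k * ((c (m + k + 1) : ℂ) - gr J (rd J (c (m + k + 1)))) +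
              (a m k - w k) * gr J (rd J (c (m + k + 1)))) * (((u (m + k + 1) : ℤˣ) : ℤ) : ℂ)‖
              ≤ (ε + 1 / J) * L := by
        calc _ ≤ ∑ k : Fin L, ‖(a m k * ((c (m + k + 1) : ℂ) - gr J (rd J (c (m + k + 1)))) +
              (a m k - w k) * gr J (rd J (c (m + k + 1)))) *
                (((u (m + k + 1) : ℤˣ) : ℤ) : ℂ)‖ := norm_sum_le _ _
          _ ≤ ∑ _k : Fin L, (ε + 1 / J) := Finset.sum_le_sum fun k _ => by
              rw [norm_mul, unit_norm, mul_one]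
              refine (norm_add_le _ _).trans ?_
              rw [norm_mul, norm_mul]
              have q1 := mul_le_mul (ha m k) (hg2 (m + k + 1)) (norm_nonneg _) zero_le_one
              have q2 := mul_le_mul (hwk k) (hg1 (m + k + 1)) (norm_nonneg _) hε
              linarith
          _ = (ε + 1 / J) * L := by
              rw [Finset.sum_const, Finset.card_univ, Fintype.card_fin, nsmul_eq_mul]
              ring
      have h4 := norm_add_le (∑ k : Fin L, (a m k * ((c (m + k + 1) : ℂ) -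
          gr J (rd J (c (m + k + 1)))) + (a m k - w k) * gr J (rd J (c (m + k + 1)))) *
            (((u (m + k + 1) : ℤˣ) : ℤ) : ℂ))
        (∑ k : Fin L, (w k * gr J (rd J (c (m + k + 1)))) * (((u (m + k + 1) : ℤˣ) : ℤ) : ℂ))
      have h5 : (δ + ε + 1 / J) * L = δ * L + (ε + 1 / J) * L := by ring
      linarith
  calc ∑ m ∈ range N, ‖∑ k : Fin L, a m k * (c (m + k + 1) : ℂ) *
        (((u (m + k + 1) : ℤˣ) : ℤ) : ℂ)‖
      ≤ ∑ m ∈ range N, ((if m ∈ Bad then (L : ℝ) else 0) + (δ + ε + 1 / J) * L) :=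
        Finset.sum_le_sum hterm
    _ = Bad.card * L + N * ((δ + ε + 1 / J) * L) := by
        rw [Finset.sum_add_distrib, ← Finset.sum_filter, Finset.sum_const, Finset.sum_const,
          Finset.card_range, nsmul_eq_mul, nsmul_eq_mul]
        congr 3
        rw [Finset.filter_mem_eq_inter]
        congr 1
        rw [Finset.inter_eq_right, hBad]
        exact Finset.filter_subset _ _
    _ ≤ ((W.card * (4 * Real.exp (-(δ ^ 2 * L / 8))) + ρ) * N) * L +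
          N * ((δ + ε + 1 / J) * L) := by
        have := mul_le_mul_of_nonneg_right hNB (Nat.cast_nonneg (α := ℝ) L)
        linarith
    _ = _ := by ring

/-- families of sequences of low complexity (uniformly deterministic) -/
def LowC (A : Set (ℕ → ℂ)) : Prop := ∀ ε : ℝ, 0 < ε → ∀ η : ℝ, 0 < η → ∃ L₀ : ℕ, ∀ L ≥ L₀,
  ∃ W : Finset (Fin L → ℂ), (W.card : ℝ) ≤ Real.exp (η * L) ∧ (∀ w ∈ W, ∀ k, ‖w k‖ ≤ 1) ∧
    ∀ a ∈ A, ∀ m : ℕ, ∃ w ∈ W, ∀ k : Fin L, ‖a (m + k + 1) - w k‖ ≤ ε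

theorem cesaro (u : ℕ → ℤˣ) (c : ℕ → ℝ) (hc : ∀ j, |c j| ≤ 1) (hf : Free u c)
    (A : Set (ℕ → ℂ)) (hA : LowC A) (hA1 : ∀ a ∈ A, ∀ n, ‖a n‖ ≤ 1) (ε : ℝ) (hε : 0 < ε) :
    ∀ᶠ N : ℕ in atTop, ∀ a ∈ A,
      ‖∑ n ∈ Icc 1 N, a n * (c n : ℂ) * (((u n : ℤˣ) : ℤ) : ℂ)‖ ≤ ε * N := by
  obtain ⟨δ, hδ⟩ : ∃ δ : ℝ, δ = ε / 12 := ⟨_, rfl⟩
  have hδ0 : 0 < δ := by rw [hδ]; positivity
  obtain ⟨η, hη⟩ : ∃ η : ℝ, η = δ ^ 2 / 16 := ⟨_, rfl⟩
  have hη0 : 0 < η := by rw [hη]; positivity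
  obtain ⟨L₁, hL₁⟩ := hA δ hδ0 η hη0
  have hdec : ∀ᶠ L : ℕ in atTop, (4 * Real.exp (-(η * L))) ≤ δ := by
    have h1 : Tendsto (fun L : ℕ => (4 * Real.exp (-(η * L)))) atTop (𝓝 (4 * 0)) := by
      refine Tendsto.const_mul _ ?_
      refine Real.tendsto_exp_neg_atTop_nhds_zero.comp ?_
      exact Tendsto.const_mul_atTop hη0 tendsto_natCast_atTop_atTop
    rw [mul_zero] at h1
    exact (h1.eventually (gt_mem_nhds hδ0)).mono fun L hL => le_of_lt hL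
  obtain ⟨L₂, hL₂⟩ := eventually_atTop.1 hdec
  obtain ⟨J, hJ⟩ := exists_nat_ge (1 / δ)
  have hJ1 : 1 ≤ J := by
    have h1 : 0 < 1 / δ := by positivity
    have h2 : (0 : ℝ) < J := h1.trans_le hJ
    have : 0 < J := by exact_mod_cast h2
    omega
  have hJ0 : (0 : ℝ) < J := by exact_mod_cast hJ1
  have hJδ : 1 / (J : ℝ) ≤ δ := by
    rw [div_le_iff₀ hJ0]
    rw [div_le_iff₀ hδ0] at hJ
    linarith
  obtain ⟨L, hL⟩ : ∃ L, L = max (max L₁ L₂) 1 := ⟨_, rfl⟩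
  have hLa : L₁ ≤ L := by rw [hL]; exact (le_max_left _ _).trans (le_max_left _ _)
  have hLb : L₂ ≤ L := by rw [hL]; exact (le_max_right _ _).trans (le_max_left _ _)
  have hLc : 1 ≤ L := by rw [hL]; exact le_max_right _ _
  have hLr : (1 : ℝ) ≤ L := by exact_mod_cast hLc
  obtain ⟨W, hW1, hW2, hW3⟩ := hL₁ L hLa
  have hdL := hL₂ L hLb
  have hWe : (W.card : ℝ) * (4 * Real.exp (-(δ ^ 2 * L / 8))) ≤ δ := by
    calc (W.card : ℝ) * (4 * Real.exp (-(δ ^ 2 * L / 8)))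
        ≤ Real.exp (η * L) * (4 * Real.exp (-(δ ^ 2 * L / 8))) :=
          mul_le_mul_of_nonneg_right hW1 (by positivity)
      _ = 4 * Real.exp (-(η * L)) := by
          rw [mul_left_comm, ← Real.exp_add, hη]
          congr 2
          ring
      _ ≤ δ := hdL
  have hbig : ∀ᶠ N : ℕ in atTop, 2 * (L : ℝ) ≤ ε / 2 * N := by
    have h1 : Tendsto (fun N : ℕ => ε / 2 * (N : ℝ)) atTop atTop :=
      Tendsto.const_mul_atTop (by positivity) tendsto_natCast_atTop_atTop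
    exact h1.eventually (eventually_ge_atTop _)
  filter_upwards [strong u c hc hf J hJ1 L W hW2 δ hδ0.le δ hδ0.le δ hδ0, hbig] with N hN hN2 a ha
  have h1 := hN (fun m k => a (m + k + 1)) (fun m k => hA1 a ha _) (fun m => hW3 a ha m)
  obtain ⟨d, hd⟩ : ∃ d : ℕ → ℂ, d = fun n => a n * (c n : ℂ) * (((u n : ℤˣ) : ℤ) : ℂ) := ⟨_, rfl⟩
  have hd1 : ∀ n, ‖d n‖ ≤ 1 := by
    intro n
    rw [hd]
    show ‖a n * (c n : ℂ) * (((u n : ℤˣ) : ℤ) : ℂ)‖ ≤ 1
    rw [norm_mul, norm_mul, unit_norm, mul_one]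
    refine mul_le_one₀ (hA1 a ha _) (norm_nonneg _) ?_
    rw [Complex.norm_real, Real.norm_eq_abs]
    exact hc n
  have h2 := sum_le_blocks d hd1 N L
  have e0 : ∑ n ∈ Icc 1 N, a n * (c n : ℂ) * (((u n : ℤˣ) : ℤ) : ℂ) = ∑ n ∈ Icc 1 N, d n := by
    rw [hd]
  rw [e0, range_eq_Icc]
  have h3 : ∑ m ∈ range N, ‖∑ k ∈ range L, d (m + k + 1)‖ ≤ 5 * δ * (L * N) := by
    calc ∑ m ∈ range N, ‖∑ k ∈ range L, d (m + k + 1)‖
        = ∑ m ∈ range N, ‖∑ k : Fin L, a (m + k + 1) * (c (m + k + 1) : ℂ) *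
          (((u (m + k + 1) : ℤˣ) : ℤ) : ℂ)‖ := by
          refine Finset.sum_congr rfl fun m _ => ?_
          rw [← Fin.sum_univ_eq_sum_range (fun k => d (m + k + 1)) L, hd]
      _ ≤ _ := h1
      _ ≤ 5 * δ * (L * N) := by
          refine mul_le_mul_of_nonneg_right ?_ (by positivity)
          linarith
  have h4 : (L : ℝ) * ‖∑ m ∈ range N, d (m + 1)‖ ≤ L * (5 * δ * N + 2 * L) := by
    calc _ ≤ _ := h2
      _ ≤ 5 * δ * (L * N) + 2 * L * L := by linarith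
      _ = _ := by ring
  have h5 : ‖∑ m ∈ range N, d (m + 1)‖ ≤ 5 * δ * N + 2 * L :=
    le_of_mul_le_mul_left h4 (by linarith)
  have hN0 : (0 : ℝ) ≤ N := Nat.cast_nonneg N
  rw [hδ] at h5
  nlinarith

/-- the pairs of dilated orbits of a system of zero entropy have low complexity -/
theorem lowC_pair {X : Type*} [MetricSpace X] [CompactSpace X] (T : X → X)
    (hE : Dynamics.coverEntropy T Set.univ ≤ 0) (F : X → ℂ) (hF : Continuous F)
    (hF1 : ∀ x, ‖F x‖ ≤ 1) (p q : ℕ) (hp : 1 ≤ p) (hq : 1 ≤ q) :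
    LowC {a | ∃ x : X, a = fun m => F (T^[p * m] x) * star (F (T^[q * m] x))} := by
  classical
  intro ε hε η hη
  obtain ⟨η', hη'⟩ : ∃ η' : ℝ, η' = η / (p + q) := ⟨_, rfl⟩
  have hpq : (0 : ℝ) < p + q := by
    have h1 : (1 : ℝ) ≤ p := by exact_mod_cast hp
    have h2 : (1 : ℝ) ≤ q := by exact_mod_cast hq
    linarith
  have hη0 : 0 < η' := by rw [hη']; positivity
  obtain ⟨L₀, hL₀⟩ := few_words T hE F hF (ε / 2) η' (by positivity) hη0
  refine ⟨L₀, fun L hL => ?_⟩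
  obtain ⟨s₁, hs₁, hy₁⟩ := hL₀ (p * L) (hL.le.trans (Nat.le_mul_of_pos_left L hp))
  obtain ⟨s₂, hs₂, hy₂⟩ := hL₀ (q * L) (hL.le.trans (Nat.le_mul_of_pos_left L hq))
  refine ⟨(s₁ ×ˢ s₂).image (fun z => fun k : Fin L =>
    F (T^[p * k] z.1) * star (F (T^[q * k] z.2))), ?_, ?_, ?_⟩
  · have h1 : ((s₁ ×ˢ s₂).image (fun z => fun k : Fin L =>
        F (T^[p * k] z.1) * star (F (T^[q * k] z.2)))).card ≤ s₁.card * s₂.card := by
      refine Finset.card_image_le.trans ?_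
      rw [Finset.card_product]
    calc ((((s₁ ×ˢ s₂).image (fun z => fun k : Fin L =>
        F (T^[p * k] z.1) * star (F (T^[q * k] z.2)))).card : ℕ) : ℝ)
        ≤ (s₁.card : ℝ) * s₂.card := by exact_mod_cast h1
      _ ≤ Real.exp (η' * (p * L : ℕ)) * Real.exp (η' * (q * L : ℕ)) :=
          mul_le_mul hs₁ hs₂ (Nat.cast_nonneg _) (Real.exp_pos _).le
      _ = Real.exp (η * L) := by
          rw [← Real.exp_add, hη']
          congr 1
          push_cast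
          field_simp
  · intro w hw k
    rw [Finset.mem_image] at hw
    obtain ⟨z, _, rfl⟩ := hw
    show ‖F (T^[p * k] z.1) * star (F (T^[q * k] z.2))‖ ≤ 1
    rw [norm_mul, norm_star]
    exact mul_le_one₀ (hF1 _) (norm_nonneg _) (hF1 _)
  · rintro a ⟨x, rfl⟩ m
    obtain ⟨z₁, hz₁, hz₁'⟩ := hy₁ (T^[p * (m + 1)] x)
    obtain ⟨z₂, hz₂, hz₂'⟩ := hy₂ (T^[q * (m + 1)] x)
    refine ⟨fun k : Fin L => F (T^[p * k] z₁) * star (F (T^[q * k] z₂)),
      Finset.mem_image.2 ⟨(z₁, z₂), Finset.mem_product.2 ⟨hz₁, hz₂⟩, rfl⟩, fun k => ?_⟩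
    have e1 : T^[p * (m + k + 1)] x = T^[p * k] (T^[p * (m + 1)] x) := by
      rw [← Function.iterate_add_apply]
      congr 2
      ring
    have e2 : T^[q * (m + k + 1)] x = T^[q * k] (T^[q * (m + 1)] x) := by
      rw [← Function.iterate_add_apply]
      congr 2
      ring
    show ‖F (T^[p * (m + k + 1)] x) * star (F (T^[q * (m + k + 1)] x)) -
      F (T^[p * k] z₁) * star (F (T^[q * k] z₂))‖ ≤ ε
    rw [e1, e2]
    have h1 := hz₁' (p * k) (Nat.mul_lt_mul_of_pos_left k.2 hp)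
    have h2 := hz₂' (q * k) (Nat.mul_lt_mul_of_pos_left k.2 hq)
    obtain ⟨A, hA⟩ : ∃ A, A = F (T^[p * k] (T^[p * (m + 1)] x)) := ⟨_, rfl⟩
    obtain ⟨B, hB⟩ : ∃ B, B = F (T^[q * k] (T^[q * (m + 1)] x)) := ⟨_, rfl⟩
    obtain ⟨A', hA'⟩ : ∃ A', A' = F (T^[p * k] z₁) := ⟨_, rfl⟩
    obtain ⟨B', hB'⟩ : ∃ B', B' = F (T^[q * k] z₂) := ⟨_, rfl⟩
    rw [← hA, ← hA'] at h1
    rw [← hB, ← hB'] at h2
    rw [← hA, ← hA', ← hB, ← hB']
    have hB1 : ‖B‖ ≤ 1 := by rw [hB]; exact hF1 _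
    have hA1 : ‖A'‖ ≤ 1 := by rw [hA']; exact hF1 _
    have e3 : A * star B - A' * star B' = (A - A') * star B + A' * star (B - B') := by
      rw [star_sub]
      ring
    rw [e3]
    refine (norm_add_le _ _).trans ?_
    rw [norm_mul, norm_mul, norm_star, norm_star]
    have q1 := mul_le_mul h1 hB1 (norm_nonneg _) (by positivity)
    have q2 := mul_le_mul hA1 h2 (norm_nonneg _) zero_le_one
    linarith

end Pool.Agent.TH573.UE
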