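import Pool.Agent.TH573.UE.Ran
import Pool.Agent.W699.TLKat

/-!
Uniform orthogonality to multiplicative functions times systems of zero entropy.
-/

set_option autoImplicit false

namespace Pool.Agent.TH573.UE

open Finset Filter Topology Polynomial MeasureTheory
open Pool.Agent.H220M Pool.Agent.TH573.SM
open Pool.Agent.TH907.Sar (unit_norm)
open Pool.Agent.W208.TL (KF KAT)

theorem Icc_one (N : ℕ) : Icc 1 N = Ioc 0 N := by
  ext n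
  simp only [mem_Icc, mem_Ioc]
  omega

/-- the deterministic part, for functions bounded by one -/
theorem det_one (f : ℕ →*₀ ℤ) (u : ℕ → ℤˣ) (hfu : ∀ m : ℕ, m ≠ 0 → f m = ((u m : ℤˣ) : ℤ))
    (w : ℕ → ℝ) (hw : ∀ n, |w n| ≤ 1) (P : ℤ[X])
    (hfree : ∀ p q : ℕ, 0 < p → 0 < q → p ≠ q →
      Free (fun j => u ((RR P p q).eval (j : ℤ)).natAbs) (cw w P p q))
    {X : Type} [MetricSpace X] [CompactSpace X] (T : X → X)
    (hE : Dynamics.coverEntropy T Set.univ ≤ 0) (F : X → ℂ) (hF : Continuous F)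
    (hF1 : ∀ x, ‖F x‖ ≤ 1) (ε : ℝ) (hε : 0 < ε) :
    ∃ N₀ : ℕ, ∀ N : ℕ, N₀ ≤ N → ∀ (x : X) (h : ℕ → ℂ), KF h →
      ‖∑ n ∈ Icc 1 N, (w n : ℂ) * F (T^[n] x) * h n *
        (((f (P.eval (n : ℤ)).natAbs : ℤ) : ℝ) : ℂ)‖ ≤ ε * N := by
  classical
  obtain ⟨PP, hPP, δ, hδ0, hδ1, N₁, hN₁⟩ := Pool.Agent.W699.TLKat.kat ε 0 hε
  -- uniform correlation bounds
  have hcor : ∀ p ∈ PP, ∀ q ∈ PP, p ≠ q → ∃ M₀ : ℕ, ∀ M : ℕ, M₀ ≤ M → ∀ x : X,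
      ‖∑ n ∈ Icc 1 M, (F (T^[p * n] x) * star (F (T^[q * n] x))) * (cw w P p q n : ℂ) *
        (((u ((RR P p q).eval (n : ℤ)).natAbs : ℤˣ) : ℤ) : ℂ)‖ ≤ δ * M := by
    intro p hp q hq hpq
    have hp0 := (hPP p hp).1.pos
    have hq0 := (hPP q hq).1.pos
    obtain ⟨M₀, hM₀⟩ := eventually_atTop.1 (cesaro _ _ (cw_abs w hw P p q)
      (hfree p q hp0 hq0 hpq) _ (lowC_pair T hE F hF hF1 p q hp0 hq0) (by
        rintro a ⟨x, rfl⟩ n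
        show ‖F (T^[p * n] x) * star (F (T^[q * n] x))‖ ≤ 1
        rw [norm_mul, norm_star]
        exact mul_le_one₀ (hF1 _) (norm_nonneg _) (hF1 _)) δ hδ0)
    exact ⟨M₀, fun M hM x => hM₀ M hM _ ⟨x, rfl⟩⟩
  choose! M₀ hM₀ using hcor
  obtain ⟨K, hK⟩ : ∃ K : ℕ, K = ∑ p ∈ PP, ∑ q ∈ PP, M₀ p q := ⟨_, rfl⟩
  have hMK : ∀ p ∈ PP, ∀ q ∈ PP, M₀ p q ≤ K := by
    intro p hp q hq
    rw [hK]
    exact (Finset.single_le_sum (f := fun q => M₀ p q) (fun _ _ => Nat.zero_le _) hq).trans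
      (Finset.single_le_sum (f := fun p => ∑ q ∈ PP, M₀ p q) (fun _ _ => Nat.zero_le _) hp)
  obtain ⟨N₂, hN₂⟩ := exists_nat_ge ((K : ℝ) / δ)
  refine ⟨max N₁ N₂, fun N hN x h hh => ?_⟩
  have hNa : N₁ ≤ N := (le_max_left _ _).trans hN
  have hNb : (K : ℝ) ≤ δ * N := by
    have h1 : (N₂ : ℝ) ≤ N := by exact_mod_cast (le_max_right _ _).trans hN
    have h2 := hN₂.trans h1
    rw [div_le_iff₀ hδ0] at h2
    linarith
  obtain ⟨Φ, hΦ⟩ : ∃ Φ : ℕ → ℂ, Φ = fun n => (w n : ℂ) * F (T^[n] x) *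
      (((f (P.eval (n : ℤ)).natAbs : ℤ) : ℝ) : ℂ) := ⟨_, rfl⟩
  have hf1 : ∀ m : ℕ, ‖(((f m : ℤ) : ℝ) : ℂ)‖ ≤ 1 := by
    intro m
    by_cases h0 : m = 0
    · rw [h0, map_zero]
      simp
    · rw [hfu m h0, Complex.norm_real, Real.norm_eq_abs, M6.unit_abs]
  have hΦ1 : ∀ n, ‖Φ n‖ ≤ 1 := by
    intro n
    rw [hΦ]
    show ‖(w n : ℂ) * F (T^[n] x) * (((f (P.eval (n : ℤ)).natAbs : ℤ) : ℝ) : ℂ)‖ ≤ 1
    rw [norm_mul, norm_mul]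
    refine mul_le_one₀ (mul_le_one₀ ?_ (norm_nonneg _) (hF1 _)) (norm_nonneg _) (hf1 _)
    rw [Complex.norm_real, Real.norm_eq_abs]
    exact hw n
  have hprod : ∀ p q : ℕ, ∀ m : ℕ, Φ (p * m) * star (Φ (q * m)) =
      (F (T^[p * m] x) * star (F (T^[q * m] x))) * (cw w P p q m : ℂ) *
        (((u ((RR P p q).eval (m : ℤ)).natAbs : ℤˣ) : ℤ) : ℂ) := by
    intro p q m
    have e1 : f (P.eval ((p * m : ℕ) : ℤ)).natAbs * f (P.eval ((q * m : ℕ) : ℤ)).natAbs =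
        f ((RR P p q).eval (m : ℤ)).natAbs := by
      rw [← map_mul, ← Int.natAbs_mul, RR_eval]
      push_cast
      rfl
    have e2 : (((f (P.eval ((p * m : ℕ) : ℤ)).natAbs : ℤ) : ℝ) : ℂ) *
        (((f (P.eval ((q * m : ℕ) : ℤ)).natAbs : ℤ) : ℝ) : ℂ) =
        (((f ((RR P p q).eval (m : ℤ)).natAbs : ℤ) : ℝ) : ℂ) := by
      rw [← e1]
      push_cast
      ring
    have e3 : Φ (p * m) * star (Φ (q * m)) = (F (T^[p * m] x) * star (F (T^[q * m] x))) *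
        ((w (p * m) : ℂ) * (w (q * m) : ℂ)) *
        ((((f (P.eval ((p * m : ℕ) : ℤ)).natAbs : ℤ) : ℝ) : ℂ) *
        (((f (P.eval ((q * m : ℕ) : ℤ)).natAbs : ℤ) : ℝ) : ℂ)) := by
      rw [hΦ]
      show ((w (p * m) : ℂ) * F (T^[p * m] x) * (((f (P.eval ((p * m : ℕ) : ℤ)).natAbs : ℤ) : ℝ) : ℂ)) *
        star ((w (q * m) : ℂ) * F (T^[q * m] x) *
          (((f (P.eval ((q * m : ℕ) : ℤ)).natAbs : ℤ) : ℝ) : ℂ)) = _
      rw [star_mul', star_mul']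
      have s1 : ∀ r : ℝ, star ((r : ℝ) : ℂ) = (r : ℂ) := fun r => Complex.conj_ofReal r
      rw [s1, s1]
      ring
    rw [e3, e2]
    unfold cw
    split_ifs with h0
    · rw [h0]
      simp
    · rw [hfu _ (Int.natAbs_ne_zero.2 h0)]
      push_cast
      rfl
  have hkat := hN₁ N hNa Φ hΦ1 (by
    intro p hp q hq hpq M hM1 hM2
    have hMM : M₀ p q ≤ M := by
      have h1 : (K : ℝ) ≤ M := hNb.trans hM1
      have h2 : K ≤ M := by exact_mod_cast h1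
      exact (hMK p hp q hq).trans h2
    have h3 := hM₀ p hp q hq hpq M hMM x
    rw [Icc_one] at h3
    rw [Finset.sum_congr rfl (fun m _ => hprod p q m)]
    refine h3.trans ?_
    have : (M : ℝ) ≤ N := by exact_mod_cast hM2
    exact mul_le_mul_of_nonneg_left this hδ0.le) h hh
  rw [Icc_one]
  refine le_trans (le_of_eq ?_) hkat
  congr 1
  refine Finset.sum_congr rfl fun n _ => ?_
  rw [hΦ]
  ring

/-- the deterministic part -/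
theorem det (f : ℕ →*₀ ℤ) (u : ℕ → ℤˣ) (hfu : ∀ m : ℕ, m ≠ 0 → f m = ((u m : ℤˣ) : ℤ))
    (w : ℕ → ℝ) (hw : ∀ n, |w n| ≤ 1) (P : ℤ[X])
    (hfree : ∀ p q : ℕ, 0 < p → 0 < q → p ≠ q →
      Free (fun j => u ((RR P p q).eval (j : ℤ)).natAbs) (cw w P p q))
    {X : Type} [MetricSpace X] [CompactSpace X] (T : X → X)
    (hE : Dynamics.coverEntropy T Set.univ ≤ 0) (F : X → ℂ) (hF : Continuous F)
    (ε : ℝ) (hε : 0 < ε) :
    ∃ N₀ : ℕ, ∀ N : ℕ, N₀ ≤ N → ∀ (x : X) (h : ℕ → ℂ), KF h →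
      ‖∑ n ∈ Icc 1 N, (w n : ℂ) * F (T^[n] x) * h n *
        (((f (P.eval (n : ℤ)).natAbs : ℤ) : ℝ) : ℂ)‖ ≤ ε * N := by
  obtain ⟨B, hB⟩ : ∃ B : ℝ, ∀ x : X, ‖F x‖ ≤ B := by
    obtain ⟨B, hB⟩ := isCompact_univ.exists_bound_of_continuousOn hF.continuousOn
    exact ⟨B, fun x => hB x (Set.mem_univ x)⟩
  obtain ⟨D, hD⟩ : ∃ D : ℝ, D = max B 1 := ⟨_, rfl⟩
  have hD0 : 0 < D := by rw [hD]; exact lt_of_lt_of_le one_pos (le_max_right _ _)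
  have hD1 : (D : ℂ) ≠ 0 := by exact_mod_cast hD0.ne'
  obtain ⟨N₀, hN₀⟩ := det_one f u hfu w hw P hfree T hE (fun x => F x / D) (hF.div_const _)
    (fun x => by
      show ‖F x / D‖ ≤ 1
      rw [norm_div, Complex.norm_real, Real.norm_eq_abs, abs_of_pos hD0, div_le_one hD0, hD]
      exact (hB x).trans (le_max_left _ _)) (ε / D) (by positivity)
  refine ⟨N₀, fun N hN x h hh => ?_⟩
  have h1 := hN₀ N hN x h hh
  have h2 : ∑ n ∈ Icc 1 N, (w n : ℂ) * F (T^[n] x) * h n *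
        (((f (P.eval (n : ℤ)).natAbs : ℤ) : ℝ) : ℂ) =
      (D : ℂ) * ∑ n ∈ Icc 1 N, (w n : ℂ) * (F (T^[n] x) / D) * h n *
        (((f (P.eval (n : ℤ)).natAbs : ℤ) : ℝ) : ℂ) := by
    rw [Finset.mul_sum]
    refine Finset.sum_congr rfl fun n _ => ?_
    field_simp
  rw [h2, norm_mul, Complex.norm_real, Real.norm_eq_abs, abs_of_pos hD0]
  calc D * _ ≤ D * (ε / D * N) := mul_le_mul_of_nonneg_left h1 hD0.le
    _ = ε * N := by field_simp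

theorem main (g : ℕ →*₀ ℤ) (hg : ∀ p : ℕ, p.Prime → g p = 1 ∨ g p = -1)
    (w : ℕ → ℕ → ℝ) (hw : ∀ s n, |w s n| ≤ 1) :
    ∀ᵐ ω ∂coins, ∃! f : ℕ →*₀ ℤ, IsModif g sparse ω f ∧
      ∀ P : ℤ[X], (¬ ∃ (c : ℤ) (j : ℕ) (G : ℤ[X]), P = C c * Polynomial.X ^ j * G ^ 2) → ∀ s : ℕ,
        ∀ (X : Type) [MetricSpace X] [CompactSpace X] (T : X → X),
          Dynamics.coverEntropy T Set.univ ≤ 0 → ∀ F : X → ℂ, Continuous F →
          ∀ ε : ℝ, 0 < ε → ∃ N₀ : ℕ, ∀ N : ℕ, N₀ ≤ N → ∀ (x : X) (h : ℕ → ℂ), KF h →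
            ‖∑ n ∈ Icc 1 N, (w s n : ℂ) * F (T^[n] x) * h n *
              (((f (P.eval (n : ℤ)).natAbs : ℤ) : ℝ) : ℂ)‖ ≤ ε * N := by
  filter_upwards [free_all g hg w] with ω hω
  obtain ⟨f, u, hf, hfu, hfree⟩ := hω
  refine ⟨f, ⟨hf, ?_⟩, fun f' hf' => isModif_unique g sparse ω f' f hf'.1 hf⟩
  intro P hP s X _ _ T hE F hF ε hε
  exact det f u hfu (w s) (hw s) P (fun p q hp hq hpq => hfree s P hP p q hp hq hpq) T hE F hF ε hε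

end Pool.Agent.TH573.UE
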