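import Pool.Agent.TH573.UE.Ces

/-!
Shifted dilated orbits of a system of zero entropy.
-/

set_option autoImplicit false

namespace Pool.Agent.TH573.UE

open Finset Filter Topology
open Pool.Agent.TH907.Sar (few_words)

theorem idx_shift (p m k b : ℕ) (hp : 1 ≤ p) :
    p * (m + k + 1) - b = (p * (min m b + k + 1) - b) + p * (m - min m b) := by
  rcases le_total m b with h | h
  · rw [min_eq_left h, Nat.sub_self, mul_zero, add_zero]
  · rw [min_eq_right h]
    obtain ⟨t, rfl⟩ := Nat.exists_eq_add_of_le h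
    rw [Nat.add_sub_cancel_left]
    have h1 : b ≤ p * (b + k + 1) := by nlinarith
    have h2 : p * (b + t + k + 1) = p * (b + k + 1) + p * t := by ring
    rw [h2]
    omega

theorem lowC_shift {X : Type*} [MetricSpace X] [CompactSpace X] (T : X → X)
    (hE : Dynamics.coverEntropy T Set.univ ≤ 0) (F : X → ℂ) (hF : Continuous F)
    (hF1 : ∀ x, ‖F x‖ ≤ 1) (b p q : ℕ) (hp : 1 ≤ p) (hq : 1 ≤ q) :
    LowC {a | ∃ x : X, a = fun m => F (T^[p * m - b] x) * star (F (T^[q * m - b] x))} := by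
  classical
  intro ε hε η hη
  obtain ⟨η', hη'⟩ : ∃ η' : ℝ, η' = η / (4 * (p + q)) := ⟨_, rfl⟩
  have hpq : (0 : ℝ) < p + q := by
    have h1 : (1 : ℝ) ≤ p := by exact_mod_cast hp
    have h2 : (1 : ℝ) ≤ q := by exact_mod_cast hq
    linarith
  have hη0 : 0 < η' := by rw [hη']; positivity
  obtain ⟨L₀, hL₀⟩ := few_words T hE F hF (ε / 2) η' (by positivity) hη0
  -- the factor `b + 1`
  have hdec : ∀ᶠ L : ℕ in atTop, ((b : ℝ) + 1) ≤ Real.exp (η / 2 * L) := by
    have h1 : Tendsto (fun L : ℕ => Real.exp (η / 2 * L)) atTop atTop :=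
      Real.tendsto_exp_atTop.comp
        (Tendsto.const_mul_atTop (by positivity) tendsto_natCast_atTop_atTop)
    exact h1.eventually (eventually_ge_atTop _)
  obtain ⟨L₁, hL₁⟩ := eventually_atTop.1 hdec
  refine ⟨max (max L₀ L₁) (b + 1), fun L hL => ?_⟩
  have hLa : L₀ ≤ L := ((le_max_left _ _).trans (le_max_left _ _)).trans hL
  have hLb : L₁ ≤ L := ((le_max_right _ _).trans (le_max_left _ _)).trans hL
  have hLc : b + 1 ≤ L := (le_max_right _ _).trans hL
  have g1 : L₀ ≤ p * (L + b + 1) := by nlinarith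
  have g2 : L₀ ≤ q * (L + b + 1) := by nlinarith
  obtain ⟨s₁, hs₁, hy₁⟩ := hL₀ (p * (L + b + 1)) g1
  obtain ⟨s₂, hs₂, hy₂⟩ := hL₀ (q * (L + b + 1)) g2
  refine ⟨((range (b + 1)) ×ˢ (s₁ ×ˢ s₂)).image (fun z => fun k : Fin L =>
    F (T^[p * (z.1 + k + 1) - b] z.2.1) * star (F (T^[q * (z.1 + k + 1) - b] z.2.2))), ?_, ?_, ?_⟩
  · have h1 : (((range (b + 1)) ×ˢ (s₁ ×ˢ s₂)).image (fun z => fun k : Fin L =>
        F (T^[p * (z.1 + k + 1) - b] z.2.1) * star (F (T^[q * (z.1 + k + 1) - b] z.2.2)))).card ≤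
        (b + 1) * (s₁.card * s₂.card) := by
      refine Finset.card_image_le.trans ?_
      rw [Finset.card_product, Finset.card_product, Finset.card_range]
    have h2 : (s₁.card : ℝ) * s₂.card ≤ Real.exp (η / 2 * L) := by
      calc (s₁.card : ℝ) * s₂.card
          ≤ Real.exp (η' * (p * (L + b + 1) : ℕ)) * Real.exp (η' * (q * (L + b + 1) : ℕ)) :=
            mul_le_mul hs₁ hs₂ (Nat.cast_nonneg _) (Real.exp_pos _).le
        _ = Real.exp (η / 4 * (L + b + 1)) := by
            rw [← Real.exp_add, hη']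
            congr 1
            push_cast
            field_simp
        _ ≤ Real.exp (η / 2 * L) := by
            rw [Real.exp_le_exp]
            have : (b : ℝ) + 1 ≤ L := by exact_mod_cast hLc
            nlinarith
    calc (((((range (b + 1)) ×ˢ (s₁ ×ˢ s₂)).image (fun z => fun k : Fin L =>
        F (T^[p * (z.1 + k + 1) - b] z.2.1) *
          star (F (T^[q * (z.1 + k + 1) - b] z.2.2)))).card : ℕ) : ℝ)
        ≤ ((b : ℝ) + 1) * ((s₁.card : ℝ) * s₂.card) := by exact_mod_cast h1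
      _ ≤ Real.exp (η / 2 * L) * Real.exp (η / 2 * L) :=
          mul_le_mul (hL₁ L hLb) h2 (by positivity) (Real.exp_pos _).le
      _ = Real.exp (η * L) := by
          rw [← Real.exp_add]
          congr 1
          ring
  · intro w hw k
    rw [Finset.mem_image] at hw
    obtain ⟨z, _, rfl⟩ := hw
    show ‖F (T^[p * (z.1 + k + 1) - b] z.2.1) * star (F (T^[q * (z.1 + k + 1) - b] z.2.2))‖ ≤ 1
    rw [norm_mul, norm_star]
    exact mul_le_one₀ (hF1 _) (norm_nonneg _) (hF1 _)
  · rintro a ⟨x, rfl⟩ m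
    obtain ⟨z₁, hz₁, hz₁'⟩ := hy₁ (T^[p * (m - min m b)] x)
    obtain ⟨z₂, hz₂, hz₂'⟩ := hy₂ (T^[q * (m - min m b)] x)
    refine ⟨fun k : Fin L => F (T^[p * (min m b + k + 1) - b] z₁) *
        star (F (T^[q * (min m b + k + 1) - b] z₂)),
      Finset.mem_image.2 ⟨(min m b, (z₁, z₂)), Finset.mem_product.2 ⟨?_,
        Finset.mem_product.2 ⟨hz₁, hz₂⟩⟩, rfl⟩, fun k => ?_⟩
    · rw [Finset.mem_range]
      have := min_le_right m b
      omega
    have e1 : T^[p * (m + k + 1) - b] x =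
        T^[p * (min m b + k + 1) - b] (T^[p * (m - min m b)] x) := by
      rw [← Function.iterate_add_apply, ← idx_shift p m k b hp]
    have e2 : T^[q * (m + k + 1) - b] x =
        T^[q * (min m b + k + 1) - b] (T^[q * (m - min m b)] x) := by
      rw [← Function.iterate_add_apply, ← idx_shift q m k b hq]
    show ‖F (T^[p * (m + k + 1) - b] x) * star (F (T^[q * (m + k + 1) - b] x)) -
      F (T^[p * (min m b + k + 1) - b] z₁) * star (F (T^[q * (min m b + k + 1) - b] z₂))‖ ≤ ε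
    rw [e1, e2]
    have hk : (k : ℕ) < L := k.2
    have hmb := min_le_right m b
    have i1 : p * (min m b + k + 1) - b < p * (L + b + 1) := by
      have : p * (min m b + k + 1) < p * (L + b + 1) := by
        apply Nat.mul_lt_mul_of_pos_left _ hp
        omega
      omega
    have i2 : q * (min m b + k + 1) - b < q * (L + b + 1) := by
      have : q * (min m b + k + 1) < q * (L + b + 1) := by
        apply Nat.mul_lt_mul_of_pos_left _ hq
        omega
      omega
    have h1 := hz₁' _ i1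
    have h2 := hz₂' _ i2
    obtain ⟨A, hA⟩ : ∃ A, A = F (T^[p * (min m b + k + 1) - b] (T^[p * (m - min m b)] x)) :=
      ⟨_, rfl⟩
    obtain ⟨B, hB⟩ : ∃ B, B = F (T^[q * (min m b + k + 1) - b] (T^[q * (m - min m b)] x)) :=
      ⟨_, rfl⟩
    obtain ⟨A', hA'⟩ : ∃ A', A' = F (T^[p * (min m b + k + 1) - b] z₁) := ⟨_, rfl⟩
    obtain ⟨B', hB'⟩ : ∃ B', B' = F (T^[q * (min m b + k + 1) - b] z₂) := ⟨_, rfl⟩
    rw [← hA, ← hA'] at h1
    rw [← hB, ← hB'] at h2
    rw [← hA, ← hA', ← hB, ← hB']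
    have hB1 : ‖B‖ ≤ 1 := by rw [hB]; exact hF1 _
    have hA1 : ‖A'‖ ≤ 1 := by rw [hA']; exact hF1 _
    have e3 : A * star B - A' * star B' = (A - A') * star B + A' * star (B - B') := by
      rw [star_sub]
      ring
    rw [e3]
    refine (norm_add_le _ _).trans ?_
    rw [norm_mul, norm_mul, norm_star, norm_star]
    have q1 := mul_le_mul h1 hB1 (norm_nonneg _) (by positivity)
    have q2 := mul_le_mul hA1 h2 (norm_nonneg _) zero_le_one
    linarith

end Pool.Agent.TH573.UE
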