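import Pool.Agent.TH907.Sar.Ces

/-!
Sign patterns of a sign function inside the classes of a fixed bounded weight.
-/

set_option autoImplicit false

namespace Pool.Agent.TH573.UE

open Finset Filter Topology

theorem ind_expand (L : ℕ) (a b : Fin L → ℤˣ) :
    (if ∀ k, a k = b k then (1 : ℝ) else 0) =
      (1 / 2 ^ L) * ∑ S ∈ (univ : Finset (Fin L)).powerset,
        (∏ k ∈ S, (((b k : ℤˣ) : ℤ) : ℝ)) * ∏ k ∈ S, (((a k : ℤˣ) : ℤ) : ℝ) := by
  have h1 : (if ∀ k, a k = b k then (1 : ℝ) else 0) =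
      ∏ k : Fin L, ((1 + (((b k : ℤˣ) : ℤ) : ℝ) * (((a k : ℤˣ) : ℤ) : ℝ)) / 2) := by
    have h2 : ∀ k, (1 + (((b k : ℤˣ) : ℤ) : ℝ) * (((a k : ℤˣ) : ℤ) : ℝ)) / 2 =
        if a k = b k then 1 else 0 := by
      intro k
      rcases Int.units_eq_one_or (a k) with h | h <;> rcases Int.units_eq_one_or (b k) with h' | h' <;>
        rw [h, h'] <;> norm_num
    rw [Finset.prod_congr rfl (fun k _ => h2 k), Finset.prod_ite_zero]
    simp
  rw [h1, Finset.prod_div_distrib, Finset.prod_one_add, Finset.prod_const, Finset.card_univ,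
    Fintype.card_fin, div_eq_inv_mul, one_div]
  congr 1
  apply Finset.sum_congr rfl
  intro S _
  rw [Finset.prod_mul_distrib]

/-- inside a class, all patterns have the right frequency -/
theorem pat (u : ℕ → ℤˣ) (L : ℕ) (χ : ℕ → ℝ)
    (h : ∀ S : Finset (Fin L), S.Nonempty → Tendsto (fun N : ℕ =>
      (∑ m ∈ range N, χ m * ∏ k ∈ S, (((u (m + k + 1) : ℤˣ) : ℤ) : ℝ)) / N) atTop (𝓝 0))
    (b : Fin L → ℤˣ) :
    Tendsto (fun N : ℕ => (∑ m ∈ range N, χ m * (if ∀ k : Fin L, u (m + k + 1) = b k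
      then (1 : ℝ) else 0)) / N - (1 / 2 ^ L) * ((∑ m ∈ range N, χ m) / N)) atTop (𝓝 0) := by
  classical
  have h1 : ∀ N : ℕ, (∑ m ∈ range N, χ m * (if ∀ k : Fin L, u (m + k + 1) = b k
      then (1 : ℝ) else 0)) / N - (1 / 2 ^ L) * ((∑ m ∈ range N, χ m) / N) =
      (1 / 2 ^ L) * ∑ S ∈ (univ : Finset (Fin L)).powerset.erase ∅,
        (∏ k ∈ S, (((b k : ℤˣ) : ℤ) : ℝ)) *
        ((∑ m ∈ range N, χ m * ∏ k ∈ S, (((u (m + k + 1) : ℤˣ) : ℤ) : ℝ)) / N) := by
    intro N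
    have h2 : ∑ m ∈ range N, χ m * (if ∀ k : Fin L, u (m + k + 1) = b k then (1 : ℝ) else 0) =
        (1 / 2 ^ L) * ∑ S ∈ (univ : Finset (Fin L)).powerset,
        (∏ k ∈ S, (((b k : ℤˣ) : ℤ) : ℝ)) *
        (∑ m ∈ range N, χ m * ∏ k ∈ S, (((u (m + k + 1) : ℤˣ) : ℤ) : ℝ)) := by
      have h3 : ∀ m ∈ range N, χ m * (if ∀ k : Fin L, u (m + k + 1) = b k then (1 : ℝ) else 0) =
          ∑ S ∈ (univ : Finset (Fin L)).powerset, (1 / 2 ^ L) *
            ((∏ k ∈ S, (((b k : ℤˣ) : ℤ) : ℝ)) *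
              (χ m * ∏ k ∈ S, (((u (m + k + 1) : ℤˣ) : ℤ) : ℝ))) := by
        intro m _
        rw [ind_expand L (fun k : Fin L => u (m + k + 1)) b, mul_left_comm, Finset.mul_sum,
          Finset.mul_sum]
        apply Finset.sum_congr rfl
        intro S _
        ring
      rw [Finset.sum_congr rfl h3, Finset.sum_comm, Finset.mul_sum]
      apply Finset.sum_congr rfl
      intro S _
      rw [Finset.mul_sum, Finset.mul_sum]
    rw [h2, ← Finset.add_sum_erase _ _ (Finset.empty_mem_powerset (univ : Finset (Fin L)))]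
    simp only [Finset.prod_empty, one_mul, mul_one]
    rw [mul_add, add_div, mul_div_assoc, add_sub_cancel_left, mul_div_assoc, Finset.sum_div]
    congr 1
    apply Finset.sum_congr rfl
    intro S _
    rw [mul_div_assoc]
  simp_rw [h1]
  have h4 : Tendsto (fun N : ℕ => (1 / (2 : ℝ) ^ L) *
      ∑ S ∈ (univ : Finset (Fin L)).powerset.erase ∅, (∏ k ∈ S, (((b k : ℤˣ) : ℤ) : ℝ)) *
        ((∑ m ∈ range N, χ m * ∏ k ∈ S, (((u (m + k + 1) : ℤˣ) : ℤ) : ℝ)) / N)) atTop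
      (𝓝 ((1 / (2 : ℝ) ^ L) * ∑ S ∈ (univ : Finset (Fin L)).powerset.erase ∅,
        (∏ k ∈ S, (((b k : ℤˣ) : ℤ) : ℝ)) * 0)) := by
    refine Tendsto.const_mul _ (tendsto_finsetSum _ fun S hS => ?_)
    refine Tendsto.const_mul _ (h S ?_)
    rw [Finset.nonempty_iff_ne_empty]
    exact Finset.ne_of_mem_erase hS
  simpa using h4

/-- rounding to multiples of `1 / J` -/
noncomputable def rd (J : ℕ) (t : ℝ) : ℤ := ⌊(J : ℝ) * t⌋

theorem rd_mem (J : ℕ) (t : ℝ) (ht : |t| ≤ 1) : rd J t ∈ Icc (-(J : ℤ)) J := by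
  rw [abs_le] at ht
  have hJ : (0 : ℝ) ≤ J := Nat.cast_nonneg J
  rw [mem_Icc]
  unfold rd
  constructor
  · rw [Int.le_floor]
    push_cast
    nlinarith [ht.1]
  · have : (⌊(J : ℝ) * t⌋ : ℝ) ≤ J := (Int.floor_le _).trans (by nlinarith [ht.2])
    exact_mod_cast this

theorem rd_close (J : ℕ) (hJ : 1 ≤ J) (t : ℝ) : |t - (rd J t : ℝ) / J| ≤ 1 / J := by
  have hJ0 : (0 : ℝ) < J := by exact_mod_cast hJ
  have h1 := Int.floor_le ((J : ℝ) * t)
  have h2 := Int.lt_floor_add_one ((J : ℝ) * t)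
  unfold rd
  have e : t - (⌊(J : ℝ) * t⌋ : ℝ) / J = ((J : ℝ) * t - ⌊(J : ℝ) * t⌋) / J := by field_simp
  rw [e, abs_div, abs_of_pos hJ0, div_le_div_iff_of_pos_right hJ0, abs_le]
  constructor <;> linarith

/-- the rounded value -/
noncomputable def gr (J : ℕ) (z : ℤ) : ℂ := (((z : ℝ) / J : ℝ) : ℂ)

theorem gr_norm (J : ℕ) (hJ : 1 ≤ J) (z : ℤ) (hz : z ∈ Icc (-(J : ℤ)) J) : ‖gr J z‖ ≤ 1 := by
  have hJ0 : (0 : ℝ) < J := by exact_mod_cast hJ
  have h2 := mem_Icc.1 hz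
  unfold gr
  rw [Complex.norm_real, Real.norm_eq_abs, abs_div, abs_of_pos hJ0, div_le_one hJ0, abs_le]
  exact ⟨by exact_mod_cast h2.1, by exact_mod_cast h2.2⟩

/-- the class of the weight at the block after `m` -/
def inClass (c : ℕ → ℝ) (J L : ℕ) (κ : Fin L → ℤ) (m : ℕ) : Prop :=
  ∀ k : Fin L, rd J (c (m + k + 1)) = κ k

open Classical in
/-- the sign function `u` is random inside the classes of the weight `c` -/
def Free (u : ℕ → ℤˣ) (c : ℕ → ℝ) : Prop :=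
  ∀ (J L : ℕ) (κ : Fin L → ℤ) (S : Finset (Fin L)), S.Nonempty → Tendsto (fun N : ℕ =>
    (∑ m ∈ range N, (if inClass c J L κ m then (1 : ℝ) else 0) *
      ∏ k ∈ S, (((u (m + k + 1) : ℤˣ) : ℤ) : ℝ)) / N) atTop (𝓝 0)

open Classical in
theorem bad_count (u : ℕ → ℤˣ) (c : ℕ → ℝ) (hc : ∀ j, |c j| ≤ 1) (hf : Free u c)
    (J : ℕ) (hJ : 1 ≤ J) (L : ℕ) (W : Finset (Fin L → ℂ))
    (hW : ∀ w ∈ W, ∀ k, ‖w k‖ ≤ 1) (δ : ℝ) (hδ : 0 ≤ δ) (ρ : ℝ) (hρ : 0 < ρ) :
    ∀ᶠ N : ℕ in atTop, (((range N).filter (fun m => ∃ w ∈ W,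
      δ * L ≤ ‖∑ k : Fin L, (w k * gr J (rd J (c (m + k + 1)))) *
        (((u (m + k + 1) : ℤˣ) : ℤ) : ℂ)‖)).card : ℝ)
        ≤ (W.card * (4 * Real.exp (-(δ ^ 2 * L / 8))) + ρ) * N := by
  have hJ0 : (0 : ℝ) < J := by exact_mod_cast hJ
  obtain ⟨KK, hKK⟩ : ∃ KK : Finset (Fin L → ℤ), KK = Fintype.piFinset (fun _ => Icc (-(J : ℤ)) J) :=
    ⟨_, rfl⟩
  obtain ⟨BB, hBB⟩ : ∃ BB : (Fin L → ℤ) → Finset (Fin L → ℤˣ), BB = fun κ =>
    (univ : Finset (Fin L → ℤˣ)).filter (fun b => ∃ w ∈ W,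
      δ * L ≤ ‖∑ k : Fin L, (w k * gr J (κ k)) * (((b k : ℤˣ) : ℤ) : ℂ)‖) := ⟨_, rfl⟩
  have h1 : ∀ κ ∈ KK, ((BB κ).card : ℝ) ≤
      W.card * (2 ^ L * (4 * Real.exp (-(δ ^ 2 * L / 8)))) := by
    intro κ hκ
    rw [hKK, Fintype.mem_piFinset] at hκ
    have hk1 : ∀ k, ‖gr J (κ k)‖ ≤ 1 := fun k => gr_norm J hJ _ (hκ k)
    have h2 : BB κ ⊆ W.biUnion fun w => (univ : Finset (Fin L → ℤˣ)).filter
        (fun b => δ * L ≤ ‖∑ k, (w k * gr J (κ k)) * (((b k : ℤˣ) : ℤ) : ℂ)‖) := by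
      intro b hb
      rw [hBB] at hb
      rw [Finset.mem_filter] at hb
      obtain ⟨-, w, hw, hb⟩ := hb
      rw [Finset.mem_biUnion]
      exact ⟨w, hw, Finset.mem_filter.2 ⟨Finset.mem_univ _, hb⟩⟩
    have h3 := (Finset.card_le_card h2).trans Finset.card_biUnion_le
    calc ((BB κ).card : ℝ) ≤ ((∑ w ∈ W, ((univ : Finset (Fin L → ℤˣ)).filter
        (fun b => δ * L ≤ ‖∑ k, (w k * gr J (κ k)) *
          (((b k : ℤˣ) : ℤ) : ℂ)‖)).card : ℕ) : ℝ) := by exact_mod_cast h3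
      _ ≤ ∑ _w ∈ W, (2 ^ L * (4 * Real.exp (-(δ ^ 2 * L / 8)))) := by
          push_cast
          refine Finset.sum_le_sum fun w hw => ?_
          exact Pool.Agent.TH907.Sar.card_complex L _ (fun k => by
            rw [norm_mul]
            exact mul_le_one₀ (hW w hw k) (norm_nonneg _) (hk1 k)) δ hδ
      _ = _ := by rw [Finset.sum_const, nsmul_eq_mul]
  -- the limit of the number of bad positions
  have hT : Tendsto (fun N : ℕ => ∑ κ ∈ KK, ∑ b ∈ BB κ,
      ((∑ m ∈ range N, (if inClass c J L κ m then (1 : ℝ) else 0) *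
        (if ∀ k : Fin L, u (m + k + 1) = b k then (1 : ℝ) else 0)) / N -
        (1 / 2 ^ L) * ((∑ m ∈ range N, (if inClass c J L κ m then (1 : ℝ) else 0)) / N))) atTop
      (𝓝 (∑ κ ∈ KK, ∑ _b ∈ BB κ, (0 : ℝ))) := by
    refine tendsto_finsetSum _ fun κ _ => tendsto_finsetSum _ fun b _ => ?_
    exact pat u L _ (fun S hS => hf J L κ S hS) b
  simp only [Finset.sum_const_zero] at hT
  filter_upwards [hT.eventually (gt_mem_nhds hρ), eventually_ge_atTop 1] with N hN hN1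
  have hN0 : (0 : ℝ) < N := by exact_mod_cast hN1
  -- the classes are disjoint
  have h4 : ∑ κ ∈ KK, (∑ m ∈ range N, (if inClass c J L κ m then (1 : ℝ) else 0)) ≤ N := by
    rw [Finset.sum_comm]
    calc _ ≤ ∑ m ∈ range N, (1 : ℝ) := by
          refine Finset.sum_le_sum fun m _ => ?_
          rw [Finset.sum_ite, Finset.sum_const_zero, add_zero, Finset.sum_const, nsmul_eq_mul,
            mul_one]
          have : (KK.filter (fun κ => inClass c J L κ m)).card ≤ 1 := by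
            rw [Finset.card_le_one]
            intro a ha b hb
            rw [Finset.mem_filter] at ha hb
            funext k
            rw [← ha.2 k, ← hb.2 k]
          exact_mod_cast this
      _ = N := by simp
  have h5 : (((range N).filter (fun m => ∃ w ∈ W,
      δ * L ≤ ‖∑ k : Fin L, (w k * gr J (rd J (c (m + k + 1)))) *
        (((u (m + k + 1) : ℤˣ) : ℤ) : ℂ)‖)).card : ℝ) ≤
      ∑ κ ∈ KK, ∑ b ∈ BB κ, (∑ m ∈ range N, (if inClass c J L κ m then (1 : ℝ) else 0) *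
        (if ∀ k : Fin L, u (m + k + 1) = b k then (1 : ℝ) else 0)) := by
    rw [Finset.card_filter]
    push_cast
    have h6 : ∀ m ∈ range N, (if ∃ w ∈ W,
      δ * L ≤ ‖∑ k : Fin L, (w k * gr J (rd J (c (m + k + 1)))) *
        (((u (m + k + 1) : ℤˣ) : ℤ) : ℂ)‖ then (1 : ℝ) else 0) ≤
        ∑ κ ∈ KK, ∑ b ∈ BB κ, (if inClass c J L κ m then (1 : ℝ) else 0) *
        (if ∀ k : Fin L, u (m + k + 1) = b k then (1 : ℝ) else 0) := by
      intro m _
      have hnn : ∀ κ ∈ KK, ∀ b ∈ BB κ, (0 : ℝ) ≤ (if inClass c J L κ m then (1 : ℝ) else 0) *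
        (if ∀ k : Fin L, u (m + k + 1) = b k then (1 : ℝ) else 0) := by
        intro κ _ b _
        split_ifs <;> simp
      split_ifs with hbad
      · obtain ⟨κ, hκ⟩ : ∃ κ : Fin L → ℤ, κ = fun k : Fin L => rd J (c (m + k + 1)) := ⟨_, rfl⟩
        obtain ⟨b, hb⟩ : ∃ b : Fin L → ℤˣ, b = fun k : Fin L => u (m + k + 1) := ⟨_, rfl⟩
        have hκK : κ ∈ KK := by
          rw [hKK, Fintype.mem_piFinset]
          intro k
          rw [hκ]
          exact rd_mem J _ (hc _)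
        have hbB : b ∈ BB κ := by
          rw [hBB]
          rw [Finset.mem_filter]
          refine ⟨Finset.mem_univ _, ?_⟩
          rw [hκ, hb]
          exact hbad
        have h7 : (1 : ℝ) = (if inClass c J L κ m then (1 : ℝ) else 0) *
            (if ∀ k : Fin L, u (m + k + 1) = b k then (1 : ℝ) else 0) := by
          have h8 : inClass c J L κ m := by
            intro k
            rw [hκ]
          have h9 : ∀ k : Fin L, u (m + k + 1) = b k := by
            intro k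
            rw [hb]
          rw [if_pos h8, if_pos h9, mul_one]
        calc (1 : ℝ) = _ := h7
          _ ≤ ∑ b ∈ BB κ, (if inClass c J L κ m then (1 : ℝ) else 0) *
            (if ∀ k : Fin L, u (m + k + 1) = b k then (1 : ℝ) else 0) :=
              Finset.single_le_sum (fun b hb => hnn κ hκK b hb) hbB
          _ ≤ _ := Finset.single_le_sum
              (f := fun κ => ∑ b ∈ BB κ, (if inClass c J L κ m then (1 : ℝ) else 0) *
                (if ∀ k : Fin L, u (m + k + 1) = b k then (1 : ℝ) else 0))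
              (fun κ hκ => Finset.sum_nonneg fun b hb => hnn κ hκ b hb) hκK
      · exact Finset.sum_nonneg fun κ hκ => Finset.sum_nonneg fun b hb => hnn κ hκ b hb
    refine (Finset.sum_le_sum h6).trans (le_of_eq ?_)
    rw [Finset.sum_comm]
    apply Finset.sum_congr rfl
    intro κ _
    rw [Finset.sum_comm]
  have h6 : ∑ κ ∈ KK, ∑ b ∈ BB κ,
      ((∑ m ∈ range N, (if inClass c J L κ m then (1 : ℝ) else 0) *
        (if ∀ k : Fin L, u (m + k + 1) = b k then (1 : ℝ) else 0)) / N -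
        (1 / 2 ^ L) * ((∑ m ∈ range N, (if inClass c J L κ m then (1 : ℝ) else 0)) / N)) =
      (∑ κ ∈ KK, ∑ b ∈ BB κ, (∑ m ∈ range N, (if inClass c J L κ m then (1 : ℝ) else 0) *
        (if ∀ k : Fin L, u (m + k + 1) = b k then (1 : ℝ) else 0))) / N -
      (∑ κ ∈ KK, ((BB κ).card : ℝ) * ((1 / 2 ^ L) *
        (∑ m ∈ range N, (if inClass c J L κ m then (1 : ℝ) else 0)))) / N := by
    rw [Finset.sum_div, Finset.sum_div, ← Finset.sum_sub_distrib]
    apply Finset.sum_congr rfl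
    intro κ _
    rw [Finset.sum_sub_distrib, ← Finset.sum_div, Finset.sum_const, nsmul_eq_mul]
    congr 1
    rw [mul_div_assoc, mul_div_assoc]
  rw [h6] at hN
  have h7 : (∑ κ ∈ KK, ((BB κ).card : ℝ) * ((1 / 2 ^ L) *
        (∑ m ∈ range N, (if inClass c J L κ m then (1 : ℝ) else 0)))) ≤
      W.card * (4 * Real.exp (-(δ ^ 2 * L / 8))) * N := by
    calc _ ≤ ∑ κ ∈ KK, (W.card * (2 ^ L * (4 * Real.exp (-(δ ^ 2 * L / 8))))) * ((1 / 2 ^ L) *
        (∑ m ∈ range N, (if inClass c J L κ m then (1 : ℝ) else 0))) := by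
          refine Finset.sum_le_sum fun κ hκ => ?_
          refine mul_le_mul_of_nonneg_right (h1 κ hκ) ?_
          refine mul_nonneg (by positivity) (Finset.sum_nonneg fun m _ => ?_)
          split_ifs <;> simp
      _ = W.card * (4 * Real.exp (-(δ ^ 2 * L / 8))) *
          ∑ κ ∈ KK, (∑ m ∈ range N, (if inClass c J L κ m then (1 : ℝ) else 0)) := by
          rw [Finset.mul_sum]
          apply Finset.sum_congr rfl
          intro κ _
          have : (2 : ℝ) ^ L ≠ 0 := by positivity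
          field_simp
      _ ≤ _ := mul_le_mul_of_nonneg_left h4 (by positivity)
  refine h5.trans ?_
  rw [← sub_div, div_lt_iff₀ hN0] at hN
  linarith

end Pool.Agent.TH573.UE
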