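import Pool.Agent.TH573.UE.Root
import Pool.Agent.TH573.UE.Ces
import Pool.Agent.TH573.SM.Main

/-!
Almost every modification is free in the classes of all the weights which occur in the criterion of
Katai.
-/

set_option autoImplicit false

namespace Pool.Agent.TH573.UE

open Finset Filter Topology Polynomial MeasureTheory
open Pool.Agent.H220M Pool.Agent.TH573.SM

/-- the product of two dilations -/
noncomputable def RR (P : ℤ[X]) (p q : ℕ) : ℤ[X] :=
  P.comp (C (p : ℤ) * X + C 0) * P.comp (C (q : ℤ) * X + C 0)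

theorem RR_eval (P : ℤ[X]) (p q : ℕ) (m : ℤ) :
    (RR P p q).eval m = P.eval (p * m) * P.eval (q * m) := by
  unfold RR
  simp [eval_comp]

open Classical in
/-- the weight in the criterion of Katai -/
noncomputable def cw (w : ℕ → ℝ) (P : ℤ[X]) (p q : ℕ) (j : ℕ) : ℝ :=
  if (RR P p q).eval (j : ℤ) = 0 then 0 else w (p * j) * w (q * j)

theorem cw_abs (w : ℕ → ℝ) (hw : ∀ n, |w n| ≤ 1) (P : ℤ[X]) (p q j : ℕ) : |cw w P p q j| ≤ 1 := by
  unfold cw
  split_ifs
  · simp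
  · rw [abs_mul]
    exact mul_le_one₀ (hw _) (abs_nonneg _) (hw _)

theorem change (a b : ℕ → ℝ) (n₀ : ℕ) (h : ∀ n, n₀ ≤ n → a n = b n) (ha : ∀ n, |a n| ≤ 1)
    (hb : ∀ n, |b n| ≤ 1)
    (hT : Tendsto (fun x : ℕ => (∑ n ∈ Icc 1 x, a n) / x) atTop (𝓝 0)) :
    Tendsto (fun N : ℕ => (∑ m ∈ range N, b m) / N) atTop (𝓝 0) := by
  have h1 : ∀ N : ℕ, |∑ m ∈ range N, b m - ∑ n ∈ Icc 1 N, a n| ≤ 2 * n₀ + 2 := by
    intro N
    have e1 : ∑ n ∈ Icc 1 N, a n = ∑ m ∈ range N, a m + a N - a 0 := by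
      have h2 := Finset.sum_range_succ a N
      have h3 := Finset.sum_range_succ' a N
      have h4 : ∑ n ∈ Icc 1 N, a n = ∑ m ∈ range N, a (m + 1) := by
        rw [Finset.range_eq_Ico, Finset.sum_Ico_add' (fun n => a n) 0 N 1]
        apply Finset.sum_congr _ (fun _ _ => rfl)
        ext n
        simp only [Finset.mem_Icc, Finset.mem_Ico]
        omega
      rw [h4]
      linarith
    have e2 : |∑ m ∈ range N, (b m - a m)| ≤ 2 * n₀ := by
      calc |∑ m ∈ range N, (b m - a m)| ≤ ∑ m ∈ range N, |b m - a m| :=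
            Finset.abs_sum_le_sum_abs _ _
        _ ≤ ∑ m ∈ range N, (if m < n₀ then (2 : ℝ) else 0) := by
            refine Finset.sum_le_sum fun m _ => ?_
            split_ifs with hm
            · have h2 := ha m
              have h3 := hb m
              have h4 := abs_sub (b m) (a m)
              linarith
            · rw [h m (not_lt.1 hm), sub_self, abs_zero]
        _ = ∑ m ∈ (range N).filter (fun m => m < n₀), (2 : ℝ) := by rw [Finset.sum_filter]
        _ ≤ ∑ m ∈ range n₀, (2 : ℝ) := by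
            refine Finset.sum_le_sum_of_subset_of_nonneg ?_ fun _ _ _ => by norm_num
            intro m hm
            rw [Finset.mem_filter] at hm
            exact Finset.mem_range.2 hm.2
        _ = 2 * n₀ := by
            rw [Finset.sum_const, Finset.card_range, nsmul_eq_mul]
            ring
    rw [Finset.sum_sub_distrib] at e2
    have h5 := ha N
    have h6 := ha 0
    rw [e1]
    rw [abs_le] at *
    constructor <;> linarith [e2.1, e2.2, h5.1, h5.2, h6.1, h6.2]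
  have h2 : Tendsto (fun N : ℕ => (∑ m ∈ range N, b m - ∑ n ∈ Icc 1 N, a n) / (N : ℝ)) atTop
      (𝓝 0) := by
    have h3 : Tendsto (fun N : ℕ => (2 * (n₀ : ℝ) + 2) / (N : ℝ)) atTop (𝓝 0) :=
      tendsto_const_div_atTop_nhds_zero_nat _
    refine squeeze_zero_norm (fun N => ?_) h3
    rw [Real.norm_eq_abs, abs_div, Nat.abs_cast]
    exact div_le_div_of_nonneg_right (h1 N) (Nat.cast_nonneg _)
  have h3 := h2.add hT
  rw [add_zero] at h3
  refine h3.congr fun N => ?_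
  rw [← add_div, sub_add_cancel]

/-- the index set of the weights -/
abbrev Idx := ℕ × ℤ[X] × ℕ × ℕ × ℕ × (Σ L : ℕ, Fin L → ℤ)

theorem idx_countable : Countable Idx := by
  have := countable_poly
  infer_instance

open Classical in
/-- the weights -/
noncomputable def wt (w : ℕ → ℕ → ℝ) (i : Idx) (n : ℕ) : ℝ :=
  if inClass (cw (w i.1) i.2.1 i.2.2.1 i.2.2.2.1) i.2.2.2.2.1 i.2.2.2.2.2.1 i.2.2.2.2.2.2 n
  then 1 else 0

theorem no_roots (R : ℤ[X]) (hR : R ≠ 0) : ∃ j₀ : ℕ, ∀ j : ℕ, j₀ ≤ j → R.eval (j : ℤ) ≠ 0 := by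
  obtain ⟨B, hB⟩ : ∃ B : ℕ, ∀ z ∈ R.roots.toFinset, z.natAbs ≤ B :=
    ⟨R.roots.toFinset.sup Int.natAbs, fun z hz => Finset.le_sup (f := Int.natAbs) hz⟩
  refine ⟨B + 1, fun j hj h0 => ?_⟩
  have h1 : (j : ℤ) ∈ R.roots.toFinset := by
    rw [Multiset.mem_toFinset, mem_roots hR]
    exact h0
  have := hB _ h1
  rw [Int.natAbs_natCast] at this
  omega

theorem free_all (g : ℕ →*₀ ℤ) (hg : ∀ p : ℕ, p.Prime → g p = 1 ∨ g p = -1)
    (w : ℕ → ℕ → ℝ) :
    ∀ᵐ ω ∂coins, ∃ (f : ℕ →*₀ ℤ) (u : ℕ → ℤˣ), IsModif g sparse ω f ∧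
      (∀ m : ℕ, m ≠ 0 → f m = ((u m : ℤˣ) : ℤ)) ∧
      ∀ (s : ℕ) (P : ℤ[X]), (¬ ∃ (c : ℤ) (j : ℕ) (G : ℤ[X]), P = C c * X ^ j * G ^ 2) →
        ∀ p q : ℕ, 0 < p → 0 < q → p ≠ q →
          Free (fun j => u ((RR P p q).eval (j : ℤ)).natAbs) (cw (w s) P p q) := by
  classical
  have := idx_countable
  obtain ⟨e, he⟩ : ∃ e : ℕ → Idx, Function.Surjective e := exists_surjective_nat Idx
  obtain ⟨g', hg'⟩ := exists_unit g hg
  filter_upwards [Pool.Agent.TH573.SM.main g hg (fun i n => wt w (e i) n) (fun i n => by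
    unfold wt
    split_ifs <;> simp)] with ω hω
  obtain ⟨f, ⟨hf, hF⟩, -⟩ := hω
  obtain ⟨f', hf', hfm⟩ := isModif_exists g g' hg' sparse ω
  have hff : f = f' := isModif_unique g sparse ω f f' hf hf'
  subst hff
  refine ⟨f, modif g' sparse ω, hf, hfm, ?_⟩
  intro s P hP p q hp hq hpq J L κ S hS
  obtain ⟨i, hi⟩ := he (s, P, p, q, J, ⟨L, κ⟩)
  obtain ⟨R, hR⟩ : ∃ R, R = RR P p q := ⟨_, rfl⟩
  have hodd : ∃ β, OddAt R β := by
    rw [hR]
    exact odd_pair P (exists_odd P hP) p q hp hq hpq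
  have hR0 : R ≠ 0 := by
    obtain ⟨β, hβ⟩ := hodd
    exact hβ.ne
  obtain ⟨S', hS'⟩ : ∃ S' : Finset ℕ, S' = S.map Fin.valEmbedding := ⟨_, rfl⟩
  have hS'n : S'.Nonempty := by rw [hS']; exact hS.map
  obtain ⟨γ, hγ⟩ := odd_shift R hodd S' hS'n
  obtain ⟨F, hFdef⟩ : ∃ F, F = ∏ k ∈ S', R.comp (C 1 * X + C ((k : ℤ) + 1)) := ⟨_, rfl⟩
  rw [← hFdef] at hγ
  have h1 := hF F (not_sq F γ hγ) i 0 1
  have hfilt : ∀ x : ℕ, (Icc 1 x).filter (fun n => n ≡ 0 [MOD 1]) = Icc 1 x := by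
    intro x
    apply Finset.filter_true_of_mem
    intro n _
    exact Nat.modEq_one
  simp_rw [hfilt] at h1
  obtain ⟨j₀, hj₀⟩ := no_roots R hR0
  have hev : ∀ n : ℕ, F.eval (n : ℤ) = ∏ k ∈ S, R.eval (((n + k + 1 : ℕ) : ℤ)) := by
    intro n
    rw [hFdef, eval_prod, hS', Finset.prod_map]
    apply Finset.prod_congr rfl
    intro k _
    rw [eval_comp]
    congr 1
    simp only [eval_add, eval_mul, eval_C, eval_X, Fin.valEmbedding_apply]
    push_cast
    ring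
  refine change (fun n => wt w (e i) n * ((f (F.eval (n : ℤ)).natAbs : ℤ) : ℝ)) _ j₀ ?_ ?_ ?_ h1
  · intro n hn
    beta_reduce
    rw [hi]
    have e1 : ((f (F.eval (n : ℤ)).natAbs : ℤ) : ℝ) = ∏ k ∈ S,
        (((modif g' sparse ω ((RR P p q).eval ((n + k + 1 : ℕ) : ℤ)).natAbs : ℤˣ) : ℤ) : ℝ) := by
      have hna : (∏ k ∈ S, R.eval (((n + k + 1 : ℕ) : ℤ))).natAbs =
          ∏ k ∈ S, (R.eval (((n + k + 1 : ℕ) : ℤ))).natAbs := map_prod Int.natAbsHom _ _
      rw [hev, hna, map_prod]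
      push_cast
      apply Finset.prod_congr rfl
      intro k _
      have h2 : ((RR P p q).eval ((n + k + 1 : ℕ) : ℤ)).natAbs ≠ 0 := by
        rw [Int.natAbs_ne_zero, ← hR]
        exact hj₀ _ (by omega)
      rw [hR]
      push_cast at h2 ⊢
      rw [hfm _ h2]
    rw [e1]
    rfl
  · intro n
    beta_reduce
    rw [abs_mul]
    refine mul_le_one₀ ?_ (abs_nonneg _) ?_
    · unfold wt
      split_ifs <;> simp
    · by_cases h0 : (F.eval (n : ℤ)).natAbs = 0
      · rw [h0, map_zero]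
        simp
      · rw [hfm _ h0, M6.unit_abs]
  · intro n
    rw [abs_mul]
    refine mul_le_one₀ ?_ (abs_nonneg _) ?_
    · split_ifs <;> simp
    · rw [Finset.abs_prod]
      refine Finset.prod_le_one (fun _ _ => abs_nonneg _) fun k _ => ?_
      rw [M6.unit_abs]

end Pool.Agent.TH573.UE
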