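import Pool.Agent.TH573.SM.Fact

/-!
Complex roots of odd multiplicity of integer polynomials, under dilations and shifts.
-/

set_option autoImplicit false

namespace Pool.Agent.TH573.UE

open Polynomial Finset
open Pool.Agent.TH573.SM

/-- the polynomial over the complex numbers -/
noncomputable abbrev toC (P : ℤ[X]) : ℂ[X] := P.map (Int.castRingHom ℂ)

/-- `α` is a root of odd multiplicity -/
def OddAt (P : ℤ[X]) (α : ℂ) : Prop := Odd ((toC P).rootMultiplicity α)

theorem toC_ne {P : ℤ[X]} (h : P ≠ 0) : toC P ≠ 0 :=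
  (Polynomial.map_ne_zero_iff Int.cast_injective).2 h

theorem OddAt.ne {P : ℤ[X]} {α : ℂ} (h : OddAt P α) : P ≠ 0 := by
  rintro rfl
  unfold OddAt toC at h
  rw [Polynomial.map_zero, rootMultiplicity_zero] at h
  exact absurd h (by decide)

theorem OddAt.root {P : ℤ[X]} {α : ℂ} (h : OddAt P α) : α ∈ (toC P).roots := by
  rw [mem_roots (toC_ne h.ne)]
  have h1 : 0 < (toC P).rootMultiplicity α := h.pos
  exact (rootMultiplicity_pos (toC_ne h.ne)).1 h1

theorem not_sq (P : ℤ[X]) (α : ℂ) (h : OddAt P α) :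
    ¬ ∃ (c : ℤ) (G : ℤ[X]), P = C c * G ^ 2 := by
  rintro ⟨c, G, hP⟩
  have hP0 := h.ne
  have hc : c ≠ 0 := by
    rintro rfl
    apply hP0
    rw [hP]
    simp
  have hG : G ≠ 0 := by
    rintro rfl
    apply hP0
    rw [hP]
    simp
  have hGC := toC_ne hG
  have e : toC P = C (c : ℂ) * (toC G * toC G) := by
    unfold toC
    rw [hP]
    simp [sq]
  have hcc : (C (c : ℂ) : ℂ[X]) ≠ 0 := C_ne_zero.2 (by exact_mod_cast hc)
  have h1 : (toC P).rootMultiplicity α = 2 * (toC G).rootMultiplicity α := by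
    rw [e, rootMultiplicity_mul (mul_ne_zero hcc (mul_ne_zero hGC hGC)), rootMultiplicity_C,
      rootMultiplicity_mul (mul_ne_zero hGC hGC)]
    ring
  unfold OddAt at h
  rw [h1] at h
  exact (Nat.not_odd_iff_even.2 (even_two_mul _)) h

/-- root multiplicities under affine substitutions -/
theorem rm_affine (A : ℂ[X]) (a b β : ℂ) (ha : a ≠ 0) :
    (A.comp (C a * X + C b)).rootMultiplicity β = A.rootMultiplicity (a * β + b) := by
  by_cases hA : A = 0
  · rw [hA, zero_comp, rootMultiplicity_zero, rootMultiplicity_zero]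
  obtain ⟨B, hB, hBd⟩ := exists_eq_pow_rootMultiplicity_mul_and_not_dvd A hA (a * β + b)
  obtain ⟨n, hn⟩ : ∃ n, n = A.rootMultiplicity (a * β + b) := ⟨_, rfl⟩
  rw [← hn] at hB ⊢
  have hB1 : B.eval (a * β + b) ≠ 0 := by
    intro h
    exact hBd (dvd_iff_isRoot.2 h)
  have e : A.comp (C a * X + C b) = C (a ^ n) * ((X - C β) ^ n * B.comp (C a * X + C b)) := by
    conv_lhs => rw [hB]
    rw [mul_comp, pow_comp, sub_comp, X_comp, C_comp]
    have : (C a * X + C b - C (a * β + b) : ℂ[X]) = C a * (X - C β) := by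
      simp only [C_add, C_mul]
      ring
    rw [this, mul_pow, ← C_pow]
    ring
  have h2 : (B.comp (C a * X + C b)).eval β ≠ 0 := by
    rw [eval_comp]
    simpa using hB1
  have h3 : B.comp (C a * X + C b) ≠ 0 := by
    intro h
    rw [h, eval_zero] at h2
    exact h2 rfl
  have h4 : ((X - C β) ^ n * B.comp (C a * X + C b) : ℂ[X]) ≠ 0 :=
    mul_ne_zero (pow_ne_zero _ (X_sub_C_ne_zero β)) h3
  rw [e, rootMultiplicity_mul (mul_ne_zero (C_ne_zero.2 (pow_ne_zero _ ha)) h4),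
    rootMultiplicity_C, rootMultiplicity_mul h4, rootMultiplicity_X_sub_C_pow,
    rootMultiplicity_eq_zero (x := β) h2]
  ring

/-- a nonzero root of odd multiplicity -/
theorem exists_odd (P : ℤ[X]) (h : ¬ ∃ (c : ℤ) (j : ℕ) (G : ℤ[X]), P = C c * X ^ j * G ^ 2) :
    ∃ α : ℂ, α ≠ 0 ∧ OddAt P α := by
  have hP0 : P ≠ 0 := by
    rintro rfl
    exact h ⟨0, 0, 0, by simp⟩
  obtain ⟨P', hP', hPd⟩ := exists_eq_pow_rootMultiplicity_mul_and_not_dvd P hP0 0
  obtain ⟨j, hj⟩ : ∃ j, j = P.rootMultiplicity 0 := ⟨_, rfl⟩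
  rw [← hj, C_0, sub_zero] at hP'
  rw [C_0, sub_zero] at hPd
  have h1 : ¬ ∃ (c : ℤ) (G : ℤ[X]), P' = C c * G ^ 2 := by
    rintro ⟨c, G, hG⟩
    exact h ⟨c, j, G, by rw [hP', hG]; ring⟩
  obtain ⟨B, H, k, hB, hd, hBH, hF⟩ := factor P' h1
  have hH0 : H ≠ 0 := by rintro rfl; exact hBH (dvd_zero _)
  have hprim : B.IsPrimitive := hB.isPrimitive hd.ne'
  have hirr : Irreducible (B.map (Int.castRingHom ℚ)) :=
    (IsPrimitive.Int.irreducible_iff_irreducible_map_cast hprim).1 hB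
  have hcop : IsCoprime (B.map (Int.castRingHom ℚ))
      ((derivative B * H).map (Int.castRingHom ℚ)) := by
    rw [Irreducible.coprime_iff_not_dvd hirr]
    intro h
    rw [Polynomial.map_mul] at h
    rcases hirr.prime.dvd_or_dvd h with h1 | h1
    · have h2 := (IsPrimitive.Int.dvd_iff_map_cast_dvd_map_cast B (derivative B) hprim).2 h1
      have h3 : derivative B ≠ 0 := by
        intro h0
        have := derivative_eq_zero.1 h0
        omega
      have h4 := natDegree_le_of_dvd h2 h3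
      have h5 := natDegree_derivative_lt hd.ne'
      omega
    · exact hBH ((IsPrimitive.Int.dvd_iff_map_cast_dvd_map_cast B H hprim).2 h1)
  obtain ⟨U, V, R, hR, hUV⟩ := bezout B _ hcop
  have hBC := toC_ne hB.ne_zero
  obtain ⟨α, hα⟩ := IsAlgClosed.exists_root (toC B) (by
    rw [degree_map_eq_of_injective Int.cast_injective]
    intro h0
    rw [degree_eq_natDegree hB.ne_zero] at h0
    have : B.natDegree = 0 := by exact_mod_cast h0
    omega)
  have hne : α ≠ 0 := by
    rintro rfl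
    have h2 : (toC B).eval 0 = 0 := hα
    have h3 : B.coeff 0 = 0 := by
      rw [← coeff_zero_eq_eval_zero, coeff_map] at h2
      have h2' : ((B.coeff 0 : ℤ) : ℂ) = 0 := h2
      exact_mod_cast h2'
    have h4 : X ∣ B := X_dvd_iff.2 h3
    apply hPd
    rw [hF]
    exact (h4.trans (dvd_pow_self _ (by omega))).mul_right _
  have hev : (toC (derivative B)).eval α * (toC H).eval α ≠ 0 := by
    intro h0
    have h2 : (toC (U * B + V * (derivative B * H))).eval α = (R : ℂ) := by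
      rw [hUV]
      simp [toC]
    have h3 : (toC (U * B + V * (derivative B * H))).eval α =
        (toC U).eval α * (toC B).eval α + (toC V).eval α *
          ((toC (derivative B)).eval α * (toC H).eval α) := by
      simp [toC]
    have h4 : (toC B).eval α = 0 := hα
    rw [h3, h4, h0, mul_zero, mul_zero, add_zero] at h2
    exact hR (by exact_mod_cast h2.symm)
  have hd1 : (toC (derivative B)).eval α ≠ 0 := left_ne_zero_of_mul hev
  have hH1 : (toC H).eval α ≠ 0 := right_ne_zero_of_mul hev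
  have hm1 : (toC B).rootMultiplicity α = 1 := by
    have h2 : 0 < (toC B).rootMultiplicity α := (rootMultiplicity_pos hBC).2 hα
    have h3 : ¬ 1 < (toC B).rootMultiplicity α := by
      rw [one_lt_rootMultiplicity_iff_isRoot hBC]
      rintro ⟨-, h4⟩
      apply hd1
      unfold toC at h4 ⊢
      rw [← derivative_map]
      exact h4
    omega
  refine ⟨α, hne, ?_⟩
  have e : toC P = X ^ j * (toC B ^ (2 * k + 1) * toC H) := by
    rw [hP', hF]
    simp [toC]
  have hHC := toC_ne hH0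
  have h5 : (toC B ^ (2 * k + 1) * toC H : ℂ[X]) ≠ 0 := mul_ne_zero (pow_ne_zero _ hBC) hHC
  have h6 : (X ^ j : ℂ[X]).rootMultiplicity α = 0 := by
    apply rootMultiplicity_eq_zero
    rw [IsRoot.def, eval_pow, eval_X]
    exact pow_ne_zero _ hne
  have h7 : (toC H).rootMultiplicity α = 0 := rootMultiplicity_eq_zero hH1
  have h8 : ∀ m : ℕ, (toC B ^ m).rootMultiplicity α = m := by
    intro m
    induction m with
    | zero =>
      rw [pow_zero]
      apply rootMultiplicity_eq_zero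
      rw [IsRoot.def, eval_one]
      exact one_ne_zero
    | succ m ih =>
      rw [pow_succ, rootMultiplicity_mul (mul_ne_zero (pow_ne_zero _ hBC) hBC), ih, hm1]
  unfold OddAt
  rw [e, rootMultiplicity_mul (mul_ne_zero (pow_ne_zero _ X_ne_zero) h5), h6,
    rootMultiplicity_mul h5, h7, h8]
  exact ⟨k, by ring⟩

theorem comp_toC (P : ℤ[X]) (a b : ℤ) :
    toC (P.comp (C a * X + C b)) = (toC P).comp (C (a : ℂ) * X + C (b : ℂ)) := by
  unfold toC
  rw [Polynomial.map_comp]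
  simp

/-- the product of two dilations has a root of odd multiplicity -/
theorem odd_pair_aux (P : ℤ[X]) (h : ∃ α : ℂ, α ≠ 0 ∧ OddAt P α) (p q : ℕ) (hp : 0 < p)
    (hpq : p < q) : ∃ β, OddAt (P.comp (C (p : ℤ) * X + C 0) * P.comp (C (q : ℤ) * X + C 0)) β := by
  classical
  obtain ⟨α₀, h0, hα₀⟩ := h
  have hP0 := hα₀.ne
  obtain ⟨S, hS⟩ : ∃ S : Finset ℂ, S = (toC P).roots.toFinset.filter (fun α => α ≠ 0 ∧ OddAt P α) :=
    ⟨_, rfl⟩
  have hmem : ∀ α, α ∈ S ↔ α ≠ 0 ∧ OddAt P α := by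
    intro α
    rw [hS, mem_filter, Multiset.mem_toFinset]
    exact ⟨fun h => h.2, fun h => ⟨h.2.root, h⟩⟩
  obtain ⟨α, hα, hmax⟩ := S.exists_max_image (fun z => ‖z‖) ⟨α₀, (hmem _).2 ⟨h0, hα₀⟩⟩
  obtain ⟨hα0, hαo⟩ := (hmem _).1 hα
  have hpc : (p : ℂ) ≠ 0 := by exact_mod_cast hp.ne'
  have hqc : (q : ℂ) ≠ 0 := by
    have : q ≠ 0 := by omega
    exact_mod_cast this
  have c1 : toC (P.comp (C (p : ℤ) * X + C 0)) ≠ 0 ∧ toC (P.comp (C (q : ℤ) * X + C 0)) ≠ 0 := by
    constructor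
    · rw [comp_toC]
      intro hc
      have h1 := rm_affine (toC P) ((p : ℤ) : ℂ) ((0 : ℤ) : ℂ) (α / p) (by exact_mod_cast hpc)
      rw [hc, rootMultiplicity_zero] at h1
      have h2 : ((p : ℤ) : ℂ) * (α / p) + ((0 : ℤ) : ℂ) = α := by
        push_cast
        field_simp
        ring
      rw [h2] at h1
      unfold OddAt at hαo
      rw [← h1] at hαo
      exact absurd hαo (by decide)
    · rw [comp_toC]
      intro hc
      have h1 := rm_affine (toC P) ((q : ℤ) : ℂ) ((0 : ℤ) : ℂ) (α / q) (by exact_mod_cast hqc)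
      rw [hc, rootMultiplicity_zero] at h1
      have h2 : ((q : ℤ) : ℂ) * (α / q) + ((0 : ℤ) : ℂ) = α := by
        push_cast
        field_simp
        ring
      rw [h2] at h1
      unfold OddAt at hαo
      rw [← h1] at hαo
      exact absurd hαo (by decide)
  refine ⟨α / p, ?_⟩
  have e1 : ((p : ℤ) : ℂ) * (α / p) + ((0 : ℤ) : ℂ) = α := by
    push_cast
    field_simp
    ring
  have e2 : ((q : ℤ) : ℂ) * (α / p) + ((0 : ℤ) : ℂ) = (q / p : ℂ) * α := by
    push_cast
    ring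
  have hnot : ¬ OddAt P ((q / p : ℂ) * α) := by
    intro hodd
    have h1 := hmax _ ((hmem _).2 ⟨mul_ne_zero (div_ne_zero hqc hpc) hα0, hodd⟩)
    rw [norm_mul] at h1
    have h2 : 0 < ‖α‖ := norm_pos_iff.2 hα0
    have h3 : ‖(q / p : ℂ)‖ = (q : ℝ) / p := by simp
    rw [h3] at h1
    have h4 : (1 : ℝ) < (q : ℝ) / p := by
      rw [lt_div_iff₀ (by exact_mod_cast hp)]
      have : (p : ℝ) < q := by exact_mod_cast hpq
      linarith
    nlinarith
  unfold OddAt at hαo hnot ⊢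
  have e3 : toC (P.comp (C (p : ℤ) * X + C 0) * P.comp (C (q : ℤ) * X + C 0)) =
      toC (P.comp (C (p : ℤ) * X + C 0)) * toC (P.comp (C (q : ℤ) * X + C 0)) := by
    unfold toC
    rw [Polynomial.map_mul]
  rw [e3, rootMultiplicity_mul (mul_ne_zero c1.1 c1.2), comp_toC, comp_toC, rm_affine _ _ _ _ (by
    exact_mod_cast hpc), rm_affine _ _ _ _ (by exact_mod_cast hqc), e1, e2]
  exact hαo.add_even (Nat.not_odd_iff_even.1 hnot)

theorem odd_pair (P : ℤ[X]) (h : ∃ α : ℂ, α ≠ 0 ∧ OddAt P α) (p q : ℕ) (hp : 0 < p) (hq : 0 < q)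
    (hpq : p ≠ q) : ∃ β, OddAt (P.comp (C (p : ℤ) * X + C 0) * P.comp (C (q : ℤ) * X + C 0)) β := by
  rcases lt_or_gt_of_ne hpq with h1 | h1
  · exact odd_pair_aux P h p q hp h1
  · rw [mul_comm]
    exact odd_pair_aux P h q p hq h1

/-- products of shifts have a root of odd multiplicity -/
theorem odd_shift (R : ℤ[X]) (h : ∃ β, OddAt R β) (S : Finset ℕ) (hS : S.Nonempty) :
    ∃ γ, OddAt (∏ k ∈ S, R.comp (C 1 * X + C ((k : ℤ) + 1))) γ := by
  classical
  obtain ⟨β₀, hβ₀⟩ := h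
  have hR0 := hβ₀.ne
  obtain ⟨O, hO⟩ : ∃ O : Finset ℂ, O = (toC R).roots.toFinset.filter (fun α => OddAt R α) :=
    ⟨_, rfl⟩
  have hmem : ∀ α, α ∈ O ↔ OddAt R α := by
    intro α
    rw [hO, mem_filter, Multiset.mem_toFinset]
    exact ⟨fun h => h.2, fun h => ⟨h.root, h⟩⟩
  obtain ⟨β, hβ, hmin⟩ := O.exists_min_image (fun z => z.re) ⟨β₀, (hmem _).2 hβ₀⟩
  obtain ⟨K, hK⟩ : ∃ K, K = S.max' hS := ⟨_, rfl⟩
  have hKS : K ∈ S := by rw [hK]; exact S.max'_mem hS
  obtain ⟨γ, hγ⟩ : ∃ γ : ℂ, γ = β - ((K : ℂ) + 1) := ⟨_, rfl⟩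
  have hne : ∀ k : ℕ, toC (R.comp (C 1 * X + C ((k : ℤ) + 1))) ≠ 0 := by
    intro k
    rw [comp_toC]
    intro hc
    have h1 := rm_affine (toC R) ((1 : ℤ) : ℂ) (((k : ℤ) + 1 : ℤ) : ℂ) (β - ((k : ℂ) + 1)) (by simp)
    rw [hc, rootMultiplicity_zero] at h1
    have h2 : ((1 : ℤ) : ℂ) * (β - ((k : ℂ) + 1)) + (((k : ℤ) + 1 : ℤ) : ℂ) = β := by
      push_cast
      ring
    rw [h2] at h1
    have h3 : OddAt R β := (hmem _).1 hβ
    unfold OddAt at h3
    rw [← h1] at h3
    exact absurd h3 (by decide)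
  have hrm : ∀ k : ℕ, (toC (R.comp (C 1 * X + C ((k : ℤ) + 1)))).rootMultiplicity γ =
      (toC R).rootMultiplicity (γ + ((k : ℂ) + 1)) := by
    intro k
    rw [comp_toC, rm_affine _ _ _ _ (by simp)]
    congr 1
    push_cast
    ring
  have hprod : ∀ S' : Finset ℕ, (toC (∏ k ∈ S', R.comp (C 1 * X + C ((k : ℤ) + 1)))) ≠ 0 ∧
      (toC (∏ k ∈ S', R.comp (C 1 * X + C ((k : ℤ) + 1)))).rootMultiplicity γ =
      ∑ k ∈ S', (toC R).rootMultiplicity (γ + ((k : ℂ) + 1)) := by
    intro S'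
    induction S' using Finset.induction_on with
    | empty =>
      rw [prod_empty, sum_empty]
      have : toC (1 : ℤ[X]) = 1 := by simp [toC]
      rw [this]
      refine ⟨one_ne_zero, ?_⟩
      apply rootMultiplicity_eq_zero
      rw [IsRoot.def, eval_one]
      exact one_ne_zero
    | insert k S' hk ih =>
      have e : toC (∏ k ∈ insert k S', R.comp (C 1 * X + C ((k : ℤ) + 1))) =
          toC (R.comp (C 1 * X + C ((k : ℤ) + 1))) *
          toC (∏ k ∈ S', R.comp (C 1 * X + C ((k : ℤ) + 1))) := by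
        rw [prod_insert hk]
        unfold toC
        rw [Polynomial.map_mul]
      rw [e, sum_insert hk]
      refine ⟨mul_ne_zero (hne k) ih.1, ?_⟩
      rw [rootMultiplicity_mul (mul_ne_zero (hne k) ih.1), hrm, ih.2]
  refine ⟨γ, ?_⟩
  unfold OddAt
  rw [(hprod S).2, ← Finset.add_sum_erase _ _ hKS]
  apply Odd.add_even
  · have : γ + ((K : ℂ) + 1) = β := by rw [hγ]; ring
    rw [this]
    exact (hmem _).1 hβ
  · apply Finset.even_sum
    intro k hk
    rw [mem_erase] at hk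
    obtain ⟨hk1, hk2⟩ := hk
    have h1 : k < K := lt_of_le_of_ne (by rw [hK]; exact S.le_max' k hk2) hk1
    rw [← Nat.not_odd_iff_even]
    intro hodd
    have h2 := hmin _ ((hmem _).2 hodd)
    rw [hγ] at h2
    simp at h2
    have h3 : (k : ℝ) < K := by exact_mod_cast h1
    linarith

end Pool.Agent.TH573.UE
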